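import Pool.Agent.Q191.QGraphDelta2

set_option autoImplicit false

open Set Q191.QGraph Q191.QGraph.MGraph

namespace Pool.Agent.Results.MP_1debac_an.DeltaCircle

/-- There are a compact metric graph and strengths, not all zero, of delta conditions at its
vertices such that the set of global extremum points of second eigenfunctions is infinite but not
the whole graph: the circle of length `5 pi / 2` with delta conditions of strength `2` at two
points cutting it into arcs of lengths `7 pi / 4` and `3 pi / 4`. -/
theorem result : ∃ (G : MGraph) (al : G.V → ℝ), G.Connected ∧ al ≠ 0 ∧
    (G.HotSpotsD al).Infinite ∧ G.HotSpotsD al ≠ univ := by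
  refine ⟨circ, circAl, circ_connected, ?_, circ_infinite, ?_⟩
  · intro h
    have : circAl (0 : Fin 2) = 0 := congrFun h _
    simp [circAl] at this
  · intro h
    exact circ_not_hot (h ▸ mem_univ _)

end Pool.Agent.Results.MP_1debac_an.DeltaCircle
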